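import Mathlib

/-! The map of MP_5915c0_an and its estimates (proof of the frozen statement S04738). -/

set_option autoImplicit false
open scoped Topology

namespace Pool.Agent.Lib.MP_5915c0_an

/-- `Q = s + i t^2`, with `s = w 0`, `t = w 1`. -/
noncomputable def Qf (w : Fin 2 → ℂ) : ℂ := w 0 + Complex.I * (w 1) ^ 2
/-- The common denominator `D`. -/
noncomputable def Df (w : Fin 2 → ℂ) : ℂ := (Complex.I + w 0) * Qf w - (w 1) ^ 4
/-- The first numerator. -/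
noncomputable def Nf (w : Fin 2 → ℂ) : ℂ := (Complex.I - w 0) * Qf w + (w 1) ^ 4
/-- The second numerator. -/
noncomputable def Tf (w : Fin 2 → ℂ) : ℂ := 2 * Complex.I * (w 1) ^ 3
/-- The numerator as a vector. -/
noncomputable def pf (w : Fin 2 → ℂ) : EuclideanSpace ℂ (Fin 2) := WithLp.toLp 2 ![Nf w, Tf w]
/-- The map. -/
noncomputable def gf (w : Fin 2 → ℂ) : EuclideanSpace ℂ (Fin 2) := (Df w)⁻¹ • pf w

/-- imaginary part vector -/
def rho (w : Fin 2 → ℂ) : Fin 2 → ℝ := fun i => (w i).im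

/-- `rho` as a continuous linear map. -/
noncomputable def rhoL : (Fin 2 → ℂ) →L[ℝ] (Fin 2 → ℝ) :=
  ContinuousLinearMap.pi fun i => Complex.imCLM.comp (ContinuousLinearMap.proj i)

lemma rho_eq : rho = fun w => rhoL w := by
  funext w
  ext i
  simp [rho, rhoL]

lemma norm_sq_pf (w : Fin 2 → ℂ) : ‖pf w‖ ^ 2 = Complex.normSq (Nf w) + Complex.normSq (Tf w) := by
  rw [EuclideanSpace.norm_sq_eq]
  simp [pf, Complex.normSq_eq_norm_sq]

/-- the real quantity E -/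
def EE (x σ u τ : ℝ) : ℝ :=
  σ * ((x - 2 * u * τ) ^ 2 + (σ + u ^ 2 - τ ^ 2) ^ 2) - 4 * u * τ * (u ^ 2 - τ ^ 2) * (x - 2 * u * τ)
    + (u ^ 2 + τ ^ 2) ^ 2 * (σ - 2 * τ ^ 2) - 8 * u ^ 2 * τ ^ 2 * (σ + u ^ 2 - τ ^ 2)

lemma key_identity (w : Fin 2 → ℂ) :
    Complex.normSq (Df w) - (Complex.normSq (Nf w) + Complex.normSq (Tf w)) =
      4 * EE (w 0).re (w 0).im (w 1).re (w 1).im := by
  simp only [Complex.normSq_apply, Df, Nf, Tf, Qf, Complex.add_re, Complex.add_im, Complex.sub_re,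
    Complex.sub_im, pow_succ, pow_zero, one_mul, Complex.mul_re, Complex.mul_im, Complex.I_re,
    Complex.I_im, EE, Complex.re_ofNat, Complex.im_ofNat]
  ring

lemma normSq_Q (w : Fin 2 → ℂ) :
    Complex.normSq (Qf w) = ((w 0).re - 2 * (w 1).re * (w 1).im) ^ 2
      + ((w 0).im + (w 1).re ^ 2 - (w 1).im ^ 2) ^ 2 := by
  simp only [Complex.normSq_apply, Qf, Complex.add_re, Complex.add_im, 
    pow_succ, pow_zero, one_mul, Complex.mul_re, Complex.mul_im, Complex.I_re,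
    Complex.I_im]
  ring

lemma EE_bounds (x σ u τ : ℝ) (hσ : 0 < σ) (hσ' : σ < 1 / 32) (hu : |u| < 1 / 32) (hτ : |τ| < σ) :
    0 < EE x σ u τ ∧ 
    EE x σ u τ ≤ 3 * σ * ((x - 2 * u * τ) ^ 2 + (σ + u ^ 2 - τ ^ 2) ^ 2) := by
  have hτ2 : τ ^ 2 ≤ σ ^ 2 := by
    rw [← sq_abs τ]; exact pow_le_pow_left₀ (abs_nonneg _) hτ.le 2
  have hτ3 : τ ^ 2 ≤ σ / 32 := by nlinarith
  set X := x - 2 * u * τ with hX
  set Y := σ + u ^ 2 - τ ^ 2 with hY
  have hYu : u ^ 2 + σ / 2 ≤ Y := by rw [hY]; nlinarith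
  have hYt : u ^ 2 + τ ^ 2 ≤ Y := by nlinarith
  have hY0 : 0 < Y := by nlinarith [sq_nonneg u]
  have hu2 : u ^ 2 ≤ Y := by nlinarith
  -- term 1
  have h1 : |4 * u * τ * (u ^ 2 - τ ^ 2) * X| ≤ σ * (X ^ 2 + Y ^ 2) / 4 := by
    have e1 : |u ^ 2 - τ ^ 2| ≤ Y := by
      rw [abs_le]; constructor <;> nlinarith [sq_nonneg u, sq_nonneg τ]
    have e2 : |4 * u * τ * (u ^ 2 - τ ^ 2) * X| = 4 * |u| * |τ| * |u ^ 2 - τ ^ 2| * |X| := by
      rw [abs_mul, abs_mul, abs_mul, abs_mul]; norm_num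
    rw [e2]
    have e3 : 4 * |u| * |τ| ≤ σ / 8 := by
      have := abs_nonneg u
      have := abs_nonneg τ
      nlinarith
    have e4 : 4 * |u| * |τ| * |u ^ 2 - τ ^ 2| * |X| ≤ σ / 8 * Y * |X| := by
      gcongr
    have e5 : 2 * (Y * |X|) ≤ X ^ 2 + Y ^ 2 := by
      nlinarith [sq_nonneg (Y - |X|), sq_abs X]
    nlinarith
  have h2 : 8 * u ^ 2 * τ ^ 2 * Y ≤ σ * (X ^ 2 + Y ^ 2) / 4 := by
    have e1 : 8 * u ^ 2 * τ ^ 2 * Y ≤ 8 * Y * (σ / 32) * Y := by gcongr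
    nlinarith [mul_nonneg hσ.le (sq_nonneg X)]
  have h2' : 0 ≤ 8 * u ^ 2 * τ ^ 2 * Y := by positivity
  have h3 : 0 ≤ (u ^ 2 + τ ^ 2) ^ 2 * (σ - 2 * τ ^ 2) := by
    apply mul_nonneg (sq_nonneg _); linarith
  have h4 : (u ^ 2 + τ ^ 2) ^ 2 * (σ - 2 * τ ^ 2) ≤ σ * (X ^ 2 + Y ^ 2) := by
    have e1 : (u ^ 2 + τ ^ 2) ^ 2 ≤ Y ^ 2 := pow_le_pow_left₀ (by positivity) hYt 2
    have e2 : σ - 2 * τ ^ 2 ≤ σ := by nlinarith [sq_nonneg τ]
    have e3 : 0 ≤ σ - 2 * τ ^ 2 := by linarith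
    calc (u ^ 2 + τ ^ 2) ^ 2 * (σ - 2 * τ ^ 2) ≤ Y ^ 2 * σ := by gcongr
      _ ≤ _ := by nlinarith [mul_nonneg hσ.le (sq_nonneg X)]
  have h5 : 0 < σ * (X ^ 2 + Y ^ 2) := by positivity
  rw [abs_le] at h1
  unfold EE
  rw [← hX, ← hY]
  constructor <;> nlinarith [h1.1, h1.2]

lemma norm_coord_lt {w : Fin 2 → ℂ} (hw : w ∈ Metric.ball (0 : Fin 2 → ℂ) (1 / 32)) (i : Fin 2) :
    ‖w i‖ < 1 / 32 := by
  rw [mem_ball_zero_iff] at hw
  exact (norm_le_pi_norm w i).trans_lt hw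

lemma main_bounds {w : Fin 2 → ℂ} (hw : w ∈ Metric.ball (0 : Fin 2 → ℂ) (1 / 32))
    (hΓ : |(w 1).im| < (w 0).im) :
    Df w ≠ 0 ∧ ‖gf w‖ < 1 ∧ 1 - 48 * (w 0).im ≤ ‖gf w‖ := by
  have h0 := norm_coord_lt hw 0
  have h1 := norm_coord_lt hw 1
  have hσ : 0 < (w 0).im := lt_of_le_of_lt (abs_nonneg _) hΓ
  have hσ' : (w 0).im < 1 / 32 := lt_of_le_of_lt ((le_abs_self _).trans (Complex.abs_im_le_norm _)) h0
  have hu : |(w 1).re| < 1 / 32 := lt_of_le_of_lt (Complex.abs_re_le_norm _) h1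
  obtain ⟨hE0, hE1⟩ := EE_bounds (w 0).re (w 0).im (w 1).re (w 1).im hσ hσ' hu hΓ
  rw [← normSq_Q] at hE1
  have hid := key_identity w
  rw [← norm_sq_pf] at hid
  have hDpos : 0 < Complex.normSq (Df w) := by
    have := sq_nonneg ‖pf w‖
    nlinarith
  have hD0 : Df w ≠ 0 := Complex.normSq_pos.mp hDpos
  -- |D| ≥ |Q|/2
  have hQ : ‖w 1‖ ^ 2 ≤ ‖Qf w‖ := by
    have a1 : ‖w 1‖ ^ 2 = (w 1).re ^ 2 + (w 1).im ^ 2 := by
      rw [← Complex.normSq_eq_norm_sq, Complex.normSq_apply]; ring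
    have a2 : (Qf w).im ≤ ‖Qf w‖ := (le_abs_self _).trans (Complex.abs_im_le_norm _)
    have a3 : (Qf w).im = (w 0).im + (w 1).re ^ 2 - (w 1).im ^ 2 := by
      simp only [Qf, Complex.add_im, pow_succ, pow_zero, one_mul, Complex.mul_re, Complex.mul_im,
        Complex.I_re, Complex.I_im]
      ring
    have a4 : (w 1).im ^ 2 ≤ (w 0).im ^ 2 := by
      rw [← sq_abs (w 1).im]; exact pow_le_pow_left₀ (abs_nonneg _) hΓ.le 2
    nlinarith
  have hDQ : ‖Qf w‖ / 2 ≤ ‖Df w‖ := by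
    have b1 : ‖(Complex.I + w 0) * Qf w‖ - ‖(w 1) ^ 4‖ ≤ ‖Df w‖ := norm_sub_norm_le _ _
    have b2 : 1 - ‖w 0‖ ≤ ‖Complex.I + w 0‖ := by
      have := norm_sub_le_norm_add Complex.I (w 0)
      simpa using this
    have b3 : ‖(w 1) ^ 4‖ ≤ 1 / 4 * ‖Qf w‖ := by
      rw [norm_pow]
      have : ‖w 1‖ ^ 4 = ‖w 1‖ ^ 2 * ‖w 1‖ ^ 2 := by ring
      rw [this]
      have c1 : ‖w 1‖ ^ 2 ≤ 1 / 4 := by nlinarith [norm_nonneg (w 1)]
      gcongr
    rw [norm_mul] at b1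
    have b4 : (3 / 4 : ℝ) * ‖Qf w‖ ≤ ‖Complex.I + w 0‖ * ‖Qf w‖ := by
      gcongr
      linarith
    linarith
  have hDQ2 : Complex.normSq (Qf w) ≤ 4 * Complex.normSq (Df w) := by
    rw [Complex.normSq_eq_norm_sq, Complex.normSq_eq_norm_sq]
    have : ‖Qf w‖ ≤ 2 * ‖Df w‖ := by linarith
    nlinarith [norm_nonneg (Qf w), norm_nonneg (Df w)]
  have hDn : 0 < ‖Df w‖ := norm_pos_iff.mpr hD0
  have hgn : ‖gf w‖ * ‖Df w‖ = ‖pf w‖ := by
    rw [gf, norm_smul, norm_inv]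
    field_simp
  have hgn2 : ‖gf w‖ ^ 2 * Complex.normSq (Df w) = ‖pf w‖ ^ 2 := by
    rw [← hgn, Complex.normSq_eq_norm_sq]; ring
  have hlt2 : ‖gf w‖ ^ 2 < 1 := by
    by_contra hcon
    push Not at hcon
    nlinarith
  have hlt : ‖gf w‖ < 1 := by
    nlinarith [norm_nonneg (gf w)]
  refine ⟨hD0, hlt, ?_⟩
  have hge2 : 1 - 48 * (w 0).im ≤ ‖gf w‖ ^ 2 := by
    have c1 : (1 - ‖gf w‖ ^ 2) * Complex.normSq (Df w) ≤ 48 * (w 0).im * Complex.normSq (Df w) := by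
      have : 3 * (w 0).im * Complex.normSq (Qf w) ≤ 12 * (w 0).im * Complex.normSq (Df w) := by
        nlinarith
      nlinarith
    have := le_of_mul_le_mul_right c1 hDpos
    linarith
  nlinarith [norm_nonneg (gf w)]

lemma analytic_coord (i : Fin 2) : AnalyticOnNhd ℂ (fun w : Fin 2 → ℂ => w i) Set.univ := by
  intro w _
  exact (ContinuousLinearMap.proj (R := ℂ) (φ := fun _ : Fin 2 => ℂ) i).analyticAt w

lemma analytic_Q : AnalyticOnNhd ℂ Qf Set.univ :=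
  (analytic_coord 0).add (analyticOnNhd_const.mul ((analytic_coord 1).pow 2))

lemma analytic_D : AnalyticOnNhd ℂ Df Set.univ :=
  ((analyticOnNhd_const.add (analytic_coord 0)).mul analytic_Q).sub ((analytic_coord 1).pow 4)

lemma analytic_N : AnalyticOnNhd ℂ Nf Set.univ :=
  ((analyticOnNhd_const.sub (analytic_coord 0)).mul analytic_Q).add ((analytic_coord 1).pow 4)

lemma analytic_T : AnalyticOnNhd ℂ Tf Set.univ :=
  analyticOnNhd_const.mul ((analytic_coord 1).pow 3)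

lemma analytic_p : AnalyticOnNhd ℂ pf Set.univ := by
  have h : AnalyticOnNhd ℂ (fun w => (![Nf w, Tf w] : Fin 2 → ℂ)) Set.univ := by
    intro w hw
    rw [analyticAt_pi_iff]
    intro i
    fin_cases i
    · exact analytic_N w hw
    · exact analytic_T w hw
  intro w hw
  exact ((PiLp.continuousLinearEquiv 2 ℂ (fun _ : Fin 2 => ℂ)).symm.toContinuousLinearMap.analyticAt
    (![Nf w, Tf w])).comp (f := fun w => (![Nf w, Tf w] : Fin 2 → ℂ)) (h w hw)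


lemma no_ext {r : ℝ} (hr : 0 < r) (G : (Fin 2 → ℂ) → ℂ)
    (hG : AnalyticOnNhd ℂ G (Metric.ball 0 r))
    (h : ∀ w ∈ Metric.ball (0 : Fin 2 → ℂ) r, |(w 1).im| < (w 0).im → Df w * G w = Tf w) :
    False := by
  have hΦ : AnalyticOnNhd ℂ (fun w => Df w * G w - Tf w) (Metric.ball 0 r) := by
    intro w hw
    exact ((analytic_D w (Set.mem_univ _)).mul (hG w hw)).sub (analytic_T w (Set.mem_univ _))
  obtain ⟨c, hc0, hcr⟩ : ∃ c : ℝ, 0 < c ∧ c < r := ⟨r / 2, by positivity, by linarith⟩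
  set z₀ : Fin 2 → ℂ := ![(c : ℂ) * Complex.I, 0] with hz₀
  have hz₀n : ‖z₀‖ ≤ c := by
    rw [pi_norm_le_iff_of_nonneg hc0.le]
    intro i
    fin_cases i
    · simp [hz₀, abs_of_pos hc0]
    · simp [hz₀, hc0.le]
  have hz₀r : z₀ ∈ Metric.ball (0 : Fin 2 → ℂ) r := by
    rw [mem_ball_zero_iff]; linarith
  have hev : (fun w => Df w * G w - Tf w) =ᶠ[𝓝 z₀] 0 := by
    have e1 : ∀ᶠ w in 𝓝 z₀, w ∈ Metric.ball (0 : Fin 2 → ℂ) r := Metric.isOpen_ball.mem_nhds hz₀r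
    have e3 : ∀ᶠ w in 𝓝 z₀, |(w 1).im| < (w 0).im := by
      apply (isOpen_lt (f := fun w : Fin 2 → ℂ => |(w 1).im|) (g := fun w : Fin 2 → ℂ => (w 0).im)
        (by fun_prop) (by fun_prop)).mem_nhds
      simp [hz₀, hc0]
    filter_upwards [e1, e3] with w h1 h3
    show Df w * G w - Tf w = 0
    rw [h w h1 h3, sub_self]
  have hzero := hΦ.eqOn_zero_of_preconnected_of_eventuallyEq_zero
    (convex_ball (0 : Fin 2 → ℂ) r).isPreconnected hz₀r hev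
  have hγ : Continuous (fun x : ℝ => (![-Complex.I * (x : ℂ) ^ 2, (x : ℂ)] : Fin 2 → ℂ)) := by
    refine continuous_pi fun i => ?_
    fin_cases i
    · simp only [Fin.zero_eta, Matrix.cons_val_zero]
      fun_prop
    · simp only [Fin.mk_one, Matrix.cons_val_one, Matrix.cons_val_fin_one]
      fun_prop
  have hγ0 : (![-Complex.I * ((0 : ℝ) : ℂ) ^ 2, ((0 : ℝ) : ℂ)] : Fin 2 → ℂ) = 0 := by
    ext i
    fin_cases i <;> simp
  have hF1c : ContinuousAt G (0 : Fin 2 → ℂ) :=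
    (hG 0 (Metric.mem_ball_self hr)).continuousAt
  have hcomp : Filter.Tendsto (fun x : ℝ => (x : ℂ) * G ![-Complex.I * (x : ℂ) ^ 2, (x : ℂ)])
      (𝓝 0) (𝓝 (((0 : ℝ) : ℂ) * G 0)) := by
    apply Filter.Tendsto.mul
    · exact Complex.continuous_ofReal.tendsto 0
    · have := hγ.tendsto 0
      rw [hγ0] at this
      exact hF1c.tendsto.comp this
  have hconst : (fun x : ℝ => (x : ℂ) * G ![-Complex.I * (x : ℂ) ^ 2, (x : ℂ)])
      =ᶠ[𝓝[≠] 0] fun _ => -2 * Complex.I := by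
    have e1 : ∀ᶠ x : ℝ in 𝓝[≠] 0, (![-Complex.I * (x : ℂ) ^ 2, (x : ℂ)] : Fin 2 → ℂ) ∈
        Metric.ball (0 : Fin 2 → ℂ) r := by
      have := hγ.tendsto 0
      rw [hγ0] at this
      exact (this.eventually (Metric.isOpen_ball.mem_nhds (Metric.mem_ball_self hr))).filter_mono
        nhdsWithin_le_nhds
    filter_upwards [e1, self_mem_nhdsWithin] with x hx hx0
    have h1 := hzero hx
    simp only [Pi.zero_apply] at h1
    have hD : Df ![-Complex.I * (x : ℂ) ^ 2, (x : ℂ)] = -(x : ℂ) ^ 4 := by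
      simp only [Df, Qf, Matrix.cons_val_zero, Matrix.cons_val_one, Matrix.cons_val_fin_one]
      ring
    have hT : Tf ![-Complex.I * (x : ℂ) ^ 2, (x : ℂ)] = 2 * Complex.I * (x : ℂ) ^ 3 := by
      simp only [Tf, Matrix.cons_val_one, Matrix.cons_val_fin_one]
    rw [hD, hT] at h1
    have hx3 : (x : ℂ) ^ 3 ≠ 0 := pow_ne_zero _ (Complex.ofReal_ne_zero.mpr hx0)
    apply mul_left_cancel₀ hx3
    linear_combination -h1
  have hl1 : Filter.Tendsto (fun _ : ℝ => -2 * Complex.I) (𝓝[≠] 0) (𝓝 (((0 : ℝ) : ℂ) * G 0)) :=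
    (hcomp.mono_left nhdsWithin_le_nhds).congr' hconst
  have hl2 := tendsto_nhds_unique hl1 tendsto_const_nhds
  simp at hl2

end Pool.Agent.Lib.MP_5915c0_an
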